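import Pool.Agent.W120.WM.Defs2

set_option autoImplicit false

open MeasureTheory Filter Topology Set

namespace Pool.Agent.W93.WM

open Pool.Agent.W120.WM

lemma cauchy_aux (δ a : ℝ) (hδ : 0 < δ) :
    ∫⁻ t : ℝ, ENNReal.ofReal (1 / (δ ^ 2 + (t - a) ^ 2)) = ENNReal.ofReal (Real.pi / δ) := by
  have e : ∀ t : ℝ, 1 / (δ ^ 2 + (t - a) ^ 2) = (δ⁻¹) ^ 2 * (1 + ((t - a) / δ) ^ 2)⁻¹ := by
    intro t
    have h1 : 0 < δ ^ 2 + (t - a) ^ 2 := by positivity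
    have h2 : 0 < 1 + ((t - a) / δ) ^ 2 := by positivity
    field_simp
  have hint : Integrable (fun t : ℝ => (1 + ((t - a) / δ) ^ 2)⁻¹) :=
    (integrable_inv_one_add_sq.comp_div hδ.ne').comp_sub_right a
  have hval : ∫ t : ℝ, (1 + ((t - a) / δ) ^ 2)⁻¹ = δ * Real.pi := by
    rw [integral_sub_right_eq_self (fun t : ℝ => (1 + (t / δ) ^ 2)⁻¹) a,
      Measure.integral_comp_div (fun t : ℝ => (1 + t ^ 2)⁻¹) δ, integral_univ_inv_one_add_sq,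
      abs_of_pos hδ, smul_eq_mul]
  simp_rw [e]
  rw [← ofReal_integral_eq_lintegral_ofReal (hint.const_mul _)
    (Eventually.of_forall (fun t => by positivity)), integral_const_mul, hval]
  congr 1
  field_simp

lemma cons_fst {a b b' : ℝ} (h : Cons a b) (h' : Cons a b') : b = b' := by
  rcases lt_trichotomy b b' with hb | hb | hb
  · exact absurd h.2.2.1 (h'.2.2.2 b ⟨h.1, hb⟩)
  · exact hb
  · exact absurd h'.2.2.1 (h.2.2.2 b' ⟨h'.1, hb⟩)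

lemma cons_snd {a a' b : ℝ} (h : Cons a b) (h' : Cons a' b) : a = a' := by
  rcases lt_trichotomy a a' with hb | hb | hb
  · exact absurd h'.2.1 (h.2.2.2 a' ⟨hb, h'.1⟩)
  · exact hb
  · exact absurd h.2.1 (h'.2.2.2 a ⟨hb, h.1⟩)

lemma q_aux {δ a b t : ℝ} (hδ : 0 < δ) (hab : a < b) :
    ((b - a) / (‖(⟨δ, t - a⟩ : ℂ)‖ * ‖(⟨δ, t - b⟩ : ℂ)‖)) ^ 2 ≤
      2 * (1 / (δ ^ 2 + (t - a) ^ 2)) + 2 * (1 / (δ ^ 2 + (t - b) ^ 2)) := by
  have hA2 : ‖(⟨δ, t - a⟩ : ℂ)‖ ^ 2 = δ ^ 2 + (t - a) ^ 2 := by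
    rw [Complex.sq_norm, Complex.normSq_mk]; ring
  have hB2 : ‖(⟨δ, t - b⟩ : ℂ)‖ ^ 2 = δ ^ 2 + (t - b) ^ 2 := by
    rw [Complex.sq_norm, Complex.normSq_mk]; ring
  have hA : |t - a| ≤ ‖(⟨δ, t - a⟩ : ℂ)‖ := Complex.abs_im_le_norm ⟨δ, t - a⟩
  have hB : |t - b| ≤ ‖(⟨δ, t - b⟩ : ℂ)‖ := Complex.abs_im_le_norm ⟨δ, t - b⟩
  have hA0 : δ ≤ ‖(⟨δ, t - a⟩ : ℂ)‖ := (le_abs_self δ).trans (Complex.abs_re_le_norm ⟨δ, t - a⟩)
  have hB0 : δ ≤ ‖(⟨δ, t - b⟩ : ℂ)‖ := (le_abs_self δ).trans (Complex.abs_re_le_norm ⟨δ, t - b⟩)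
  rw [← hA2, ← hB2]
  set A := ‖(⟨δ, t - a⟩ : ℂ)‖
  set B := ‖(⟨δ, t - b⟩ : ℂ)‖
  have hAp : 0 < A := lt_of_lt_of_le hδ hA0
  have hBp : 0 < B := lt_of_lt_of_le hδ hB0
  have hba : b - a ≤ A + B := by
    have h1 := neg_abs_le (t - b)
    have h2 := le_abs_self (t - a)
    linarith
  have h3 : (b - a) / (A * B) ≤ 1 / A + 1 / B := by
    rw [div_le_iff₀ (mul_pos hAp hBp)]
    have : (1 / A + 1 / B) * (A * B) = A + B := by field_simp; ring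
    rw [this]; exact hba
  have h4 : 0 ≤ (b - a) / (A * B) := div_nonneg (by linarith) (mul_pos hAp hBp).le
  calc ((b - a) / (A * B)) ^ 2 ≤ (1 / A + 1 / B) ^ 2 := pow_le_pow_left₀ h4 h3 2
    _ ≤ 2 * (1 / A ^ 2) + 2 * (1 / B ^ 2) := by
      have : (1 / A + 1 / B) ^ 2 + (1 / A - 1 / B) ^ 2 = 2 * (1 / A ^ 2) + 2 * (1 / B ^ 2) := by
        field_simp; ring
      nlinarith [sq_nonneg (1 / A - 1 / B)]

lemma ee_aux {δ h t : ℝ} (hδ : 0 < δ) (hδ2 : δ < 1 / 2) (hh : 0 < h) (hh1 : h ≤ 1) :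
    ‖EE h 0 (⟨1 / 2 + δ, t⟩ : ℂ)‖ ^ 2 ≤ Real.exp 1 * Real.exp (-(h ^ 2 * t ^ 2)) := by
  have hre : (((h : ℂ) ^ 2 / 2 * (⟨1 / 2 + δ, t⟩ : ℂ) ^ 2 + ((0 : ℝ) : ℂ) * (⟨1 / 2 + δ, t⟩ : ℂ))).re =
      h ^ 2 / 2 * ((1 / 2 + δ) ^ 2 - t ^ 2) := by
    have h1 : (h : ℂ) ^ 2 / 2 = ((h ^ 2 / 2 : ℝ) : ℂ) := by push_cast; ring
    rw [h1, Complex.add_re, Complex.re_ofReal_mul, Complex.re_ofReal_mul,
      sq (⟨1 / 2 + δ, t⟩ : ℂ), Complex.mul_re]
    simp only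
    ring
  rw [EE, Complex.norm_exp, hre, ← Real.exp_nat_mul, ← Real.exp_add]
  apply Real.exp_le_exp.mpr
  push_cast
  have h2 : h ^ 2 ≤ 1 := by nlinarith
  have h3 : (1 / 2 + δ) ^ 2 ≤ 1 := by nlinarith
  have h4 : h ^ 2 * (1 / 2 + δ) ^ 2 ≤ 1 := by
    calc h ^ 2 * (1 / 2 + δ) ^ 2 ≤ 1 * 1 := by
          apply mul_le_mul h2 h3 (by positivity) (by norm_num)
      _ = 1 := by norm_num
  nlinarith

theorem main (hPT : U_PT) (hDBL : U_DBL) : U_L2 := by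
  intro H
  have hRH : RHp := fun ρ hρ => (H ρ hρ).1
  obtain ⟨C1, hC1, hpt⟩ := hPT hRH
  have hcov := (hDBL hRH).1
  have hNT : ∀ y : ℝ, riemannZeta (⟨1 / 2, y⟩ : ℂ) = 0 → (⟨1 / 2, y⟩ : ℂ) ∈ NT := by
    intro y hy
    refine ⟨hy, ?_, ?_⟩ <;> norm_num
  refine ⟨16 * Real.pi * Real.exp 1 * C1 ^ 2, by positivity, ?_⟩
  intro S hS δ h M hδ hδ2 hh hh1 hM
  have hS0 : 0 ≤ S := by simpa using hS ∅ (by simp)
  have hM0 : 0 < M := by
    have := hM 0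
    refine lt_of_lt_of_le ?_ this
    positivity
  classical
  -- the weights
  let F : ℝ → ENNReal := fun y => if riemannZeta (⟨1 / 2, y⟩ : ℂ) = 0 then ENNReal.ofReal (Ac y ^ 2) else 0
  have hF : ∑' y, F y ≤ ENNReal.ofReal S := by
    rw [ENNReal.tsum_eq_iSup_sum]
    refine iSup_le ?_
    intro Z
    have h1 : ∑ y ∈ Z, F y = ∑ y ∈ Z.filter (fun y => riemannZeta (⟨1 / 2, y⟩ : ℂ) = 0),
        ENNReal.ofReal (Ac y ^ 2) := by
      rw [Finset.sum_filter]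
    rw [h1, ← ENNReal.ofReal_sum_of_nonneg (fun y _ => sq_nonneg _)]
    apply ENNReal.ofReal_le_ofReal
    have hinj : Function.Injective (fun y : ℝ => (⟨1 / 2, y⟩ : ℂ)) := by
      intro x y hxy
      exact (Complex.ext_iff.mp hxy).2
    have h2 := hS ((Z.filter (fun y => riemannZeta (⟨1 / 2, y⟩ : ℂ) = 0)).map ⟨_, hinj⟩) (by
      intro ρ hρ
      rw [Finset.mem_map] at hρ
      obtain ⟨y, hy, rfl⟩ := hρ
      exact hNT y (Finset.mem_filter.mp hy).2)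
    rw [Finset.sum_map] at h2
    refine le_trans (le_of_eq ?_) h2
    apply Finset.sum_congr rfl
    intro y _
    simp only [Ac, Function.Embedding.coeFn_mk]
    rw [div_pow, one_pow]
  have hFpos : ∀ y : ℝ, riemannZeta (⟨1 / 2, y⟩ : ℂ) = 0 → F y ≠ 0 := by
    intro y hy
    have hd := (H _ (hNT y hy)).2
    have hne : (⟨1 / 2, y⟩ : ℂ) ≠ 0 := by
      intro h0
      have := (Complex.ext_iff.mp h0).1
      norm_num at this
    simp only [F, if_pos hy]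
    have : 0 < Ac y := by
      unfold Ac
      apply one_div_pos.mpr
      exact norm_pos_iff.mpr (mul_ne_zero hne hd)
    have h3 : 0 < Ac y ^ 2 := by positivity
    exact (ENNReal.ofReal_pos.mpr h3).ne'
  have hYc : {y : ℝ | riemannZeta (⟨1 / 2, y⟩ : ℂ) = 0}.Countable := by
    have h1 : F.support.Countable :=
      Summable.countable_support_ennreal (ne_top_of_le_ne_top ENNReal.ofReal_ne_top hF)
    exact h1.mono (fun y hy => hFpos y hy)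
  -- the index type
  let T := {p : ℝ × ℝ // Cons p.1 p.2}
  have hfst : Function.Injective (fun p : T => p.1.1) := by
    rintro ⟨⟨a, b⟩, hp⟩ ⟨⟨a', b'⟩, hp'⟩ hh
    simp only at hh hp hp'
    subst hh
    have := cons_fst hp hp'
    subst this
    rfl
  have hsnd : Function.Injective (fun p : T => p.1.2) := by
    rintro ⟨⟨a, b⟩, hp⟩ ⟨⟨a', b'⟩, hp'⟩ hh
    simp only at hh hp hp'
    subst hh
    have := cons_snd hp hp'
    subst this
    rfl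
  have hTc : Countable T := by
    have : Countable {y : ℝ | riemannZeta (⟨1 / 2, y⟩ : ℂ) = 0} := hYc.to_subtype
    let g : T → {y : ℝ | riemannZeta (⟨1 / 2, y⟩ : ℂ) = 0} := fun p => ⟨p.1.1, p.2.2.1⟩
    have hg : Function.Injective g := by
      intro p q hpq
      apply hfst
      exact congrArg Subtype.val hpq
    exact hg.countable
  have hae : (⋃ p : T, Ioo p.1.1 p.1.2) =ᵐ[volume] (univ : Set ℝ) := by
    rw [ae_eq_univ]
    apply measure_mono_null _ (hYc.measure_zero volume)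
    intro t ht
    by_contra hne
    obtain ⟨a, b, hab, h1, h2⟩ := hcov t hne
    apply ht
    rw [mem_iUnion]
    exact ⟨⟨(a, b), hab⟩, h1, h2⟩
  set g : ℝ → ENNReal := fun t => ‖GG h 0 (⟨1 / 2 + δ, t⟩ : ℂ)‖ₑ ^ 2 with hg
  have hpiece : ∀ p : T, ∫⁻ t in Ioo p.1.1 p.1.2, g t ≤
      ENNReal.ofReal (8 * Real.pi * Real.exp 1 * C1 ^ 2 * M / δ) * (F p.1.1 + F p.1.2) := by
    rintro ⟨⟨a, b⟩, hp⟩
    simp only at hp ⊢
    have hda := (H _ (hNT a hp.2.1)).2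
    have hdb := (H _ (hNT b hp.2.2.1)).2
    have hFa : F a = ENNReal.ofReal (Ac a ^ 2) := if_pos hp.2.1
    have hFb : F b = ENNReal.ofReal (Ac b ^ 2) := if_pos hp.2.2.1
    set κ : ℝ := Real.exp 1 * C1 ^ 2 * M * (2 * (Ac a ^ 2 + Ac b ^ 2)) with hκ
    have hκ0 : 0 ≤ κ := by positivity
    have hbd : ∀ t ∈ Ioo a b, g t ≤ ENNReal.ofReal (κ * 2) *
        (ENNReal.ofReal (1 / (δ ^ 2 + (t - a) ^ 2)) + ENNReal.ofReal (1 / (δ ^ 2 + (t - b) ^ 2))) := by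
      intro t ht
      have h1 := hpt a b t δ hp ht.1 ht.2 hδ hδ2 hda hdb
      have h2 : ‖GG h 0 (⟨1 / 2 + δ, t⟩ : ℂ)‖ ^ 2 ≤ κ *
          (2 * (1 / (δ ^ 2 + (t - a) ^ 2)) + 2 * (1 / (δ ^ 2 + (t - b) ^ 2))) := by
        rw [GG, div_eq_mul_inv, norm_mul, mul_pow]
        have e1 := ee_aux (t := t) hδ hδ2 hh hh1
        have e2 : ‖((⟨1 / 2 + δ, t⟩ : ℂ) * riemannZeta (⟨1 / 2 + δ, t⟩ : ℂ))⁻¹‖ ^ 2 ≤
            (C1 * (3 + |t|) ^ δ * ((b - a) / (‖(⟨δ, t - a⟩ : ℂ)‖ * ‖(⟨δ, t - b⟩ : ℂ)‖)) *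
              (Ac a + Ac b)) ^ 2 := pow_le_pow_left₀ (norm_nonneg _) h1 2
        have e3 : (C1 * (3 + |t|) ^ δ * ((b - a) / (‖(⟨δ, t - a⟩ : ℂ)‖ * ‖(⟨δ, t - b⟩ : ℂ)‖)) *
              (Ac a + Ac b)) ^ 2 = C1 ^ 2 * (3 + |t|) ^ (2 * δ) *
              ((b - a) / (‖(⟨δ, t - a⟩ : ℂ)‖ * ‖(⟨δ, t - b⟩ : ℂ)‖)) ^ 2 * (Ac a + Ac b) ^ 2 := by
          have : (3 + |t|) ^ (2 * δ) = ((3 + |t|) ^ δ) ^ 2 := by
            rw [mul_comm, Real.rpow_mul (by positivity)]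
            norm_num
          rw [this]; ring
        have e4 := q_aux (t := t) hδ hp.1
        have e5 : (Ac a + Ac b) ^ 2 ≤ 2 * (Ac a ^ 2 + Ac b ^ 2) := by
          nlinarith [sq_nonneg (Ac a - Ac b)]
        have e6 := hM t
        set Q := ((b - a) / (‖(⟨δ, t - a⟩ : ℂ)‖ * ‖(⟨δ, t - b⟩ : ℂ)‖)) ^ 2 with hQ
        set R := (2 * (1 / (δ ^ 2 + (t - a) ^ 2)) + 2 * (1 / (δ ^ 2 + (t - b) ^ 2))) with hR
        have hQ0 : 0 ≤ Q := sq_nonneg _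
        calc ‖EE h 0 (⟨1 / 2 + δ, t⟩ : ℂ)‖ ^ 2 *
              ‖((⟨1 / 2 + δ, t⟩ : ℂ) * riemannZeta (⟨1 / 2 + δ, t⟩ : ℂ))⁻¹‖ ^ 2
            ≤ (Real.exp 1 * Real.exp (-(h ^ 2 * t ^ 2))) *
              (C1 ^ 2 * (3 + |t|) ^ (2 * δ) * Q * (Ac a + Ac b) ^ 2) := by
              rw [e3] at e2
              exact mul_le_mul e1 e2 (by positivity) (by positivity)
          _ = Real.exp 1 * C1 ^ 2 * ((3 + |t|) ^ (2 * δ) * Real.exp (-(h ^ 2 * t ^ 2))) *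
              (Q * (Ac a + Ac b) ^ 2) := by ring
          _ ≤ Real.exp 1 * C1 ^ 2 * M * (R * (2 * (Ac a ^ 2 + Ac b ^ 2))) := by
              apply mul_le_mul
              · exact mul_le_mul_of_nonneg_left e6 (by positivity)
              · exact mul_le_mul e4 e5 (by positivity) (le_trans hQ0 e4)
              · positivity
              · positivity
          _ = κ * R := by rw [hκ]; ring
      have h3 : g t = ENNReal.ofReal (‖GG h 0 (⟨1 / 2 + δ, t⟩ : ℂ)‖ ^ 2) := by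
        rw [hg]
        simp only
        rw [← ofReal_norm, ENNReal.ofReal_pow (norm_nonneg _)]
      rw [h3, ← ENNReal.ofReal_add (by positivity) (by positivity), ← ENNReal.ofReal_mul (by positivity)]
      apply ENNReal.ofReal_le_ofReal
      refine h2.trans (le_of_eq ?_)
      ring
    calc ∫⁻ t in Ioo a b, g t ≤ ∫⁻ t in Ioo a b, ENNReal.ofReal (κ * 2) *
        (ENNReal.ofReal (1 / (δ ^ 2 + (t - a) ^ 2)) + ENNReal.ofReal (1 / (δ ^ 2 + (t - b) ^ 2))) :=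
          setLIntegral_mono' measurableSet_Ioo hbd
      _ ≤ ∫⁻ t, ENNReal.ofReal (κ * 2) *
        (ENNReal.ofReal (1 / (δ ^ 2 + (t - a) ^ 2)) + ENNReal.ofReal (1 / (δ ^ 2 + (t - b) ^ 2))) :=
          setLIntegral_le_lintegral _ _
      _ = ENNReal.ofReal (κ * 2) * (ENNReal.ofReal (Real.pi / δ) + ENNReal.ofReal (Real.pi / δ)) := by
          rw [lintegral_const_mul _ (by fun_prop), lintegral_add_left (by fun_prop),
            cauchy_aux δ a hδ, cauchy_aux δ b hδ]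
      _ = _ := by
          rw [hFa, hFb, ← ENNReal.ofReal_add (by positivity) (by positivity),
            ← ENNReal.ofReal_mul (by positivity), ← ENNReal.ofReal_add (by positivity) (by positivity),
            ← ENNReal.ofReal_mul (by positivity)]
          congr 1
          rw [hκ]
          ring
  calc ∫⁻ t : ℝ, g t = ∫⁻ t in (⋃ p : T, Ioo p.1.1 p.1.2), g t := by
        rw [setLIntegral_congr hae, setLIntegral_univ]
    _ ≤ ∑' p : T, ∫⁻ t in Ioo p.1.1 p.1.2, g t := lintegral_iUnion_le _ _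
    _ ≤ ∑' p : T, ENNReal.ofReal (8 * Real.pi * Real.exp 1 * C1 ^ 2 * M / δ) *
        (F p.1.1 + F p.1.2) := ENNReal.tsum_le_tsum hpiece
    _ = ENNReal.ofReal (8 * Real.pi * Real.exp 1 * C1 ^ 2 * M / δ) *
        (∑' p : T, F p.1.1 + ∑' p : T, F p.1.2) := by
        rw [ENNReal.tsum_mul_left, ENNReal.tsum_add]
    _ ≤ ENNReal.ofReal (8 * Real.pi * Real.exp 1 * C1 ^ 2 * M / δ) *
        (ENNReal.ofReal S + ENNReal.ofReal S) := by
        gcongr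
        · exact (ENNReal.tsum_comp_le_tsum_of_injective hfst F).trans hF
        · exact (ENNReal.tsum_comp_le_tsum_of_injective hsnd F).trans hF
    _ = ENNReal.ofReal (16 * Real.pi * Real.exp 1 * C1 ^ 2 * M * S / δ) := by
        rw [← ENNReal.ofReal_add hS0 hS0, ← ENNReal.ofReal_mul (by positivity)]
        congr 1
        ring

end Pool.Agent.W93.WM
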