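import Pool.Agent.W120.WM.Defs2
import Pool.Agent.W93.WM.L2

set_option autoImplicit false

open MeasureTheory Filter Topology Set

namespace Pool.Agent.W93.WM

open Pool.Agent.W120.WM

theorem tan (hPT : U_PT) (hDBL : U_DBL) (hGAP : ∀ (a b : ℝ), Cons a b → deriv riemannZeta (⟨1 / 2, a⟩ : ℂ) ≠ 0 → deriv riemannZeta (⟨1 / 2, b⟩ : ℂ) ≠ 0 → ∀ ε : ℝ, 0 < ε → ∃ δ0 : ℝ, 0 < δ0 ∧ ∀ δ h : ℝ, 0 < δ → δ < δ0 → 0 < h → h < δ0 → ∫⁻ t in Set.Ioo a b, ‖GG h 0 (⟨1 / 2 + δ, t⟩ : ℂ)‖ₑ ^ 2 ≤ ENNReal.ofReal ((Real.pi / 2 * (Ac a ^ 2 + Ac b ^ 2) + ε) / δ)) (h1 : ∀ ρ ∈ NT, ρ.re = 1 / 2 ∧ deriv riemannZeta ρ ≠ 0) (S : ℝ) (hS : ∀ Z : Finset ℂ, (∀ ρ ∈ Z, ρ ∈ NT) → ∑ ρ ∈ Z, 1 / ‖ρ * deriv riemannZeta ρ‖ ^ 2 ≤ S) (M ε : ℝ) (hε : 0 < ε) : ∃ δ0 : ℝ, 0 < δ0 ∧ ∀ δ h : ℝ, 0 < δ → δ < δ0 → 0 < h → h < δ0 → (∀ t : ℝ, (3 + |t|) ^ (2 * δ) * Real.exp (-(h ^ 2 * t ^ 2)) ≤ M) → ∫⁻ t : ℝ, ‖GG h 0 (⟨1 / 2 + δ, t⟩ : ℂ)‖ₑ ^ 2 ≤ ENNReal.ofReal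 ((Real.pi * S + ε) / δ) := by
  have H := h1
  clear h1
  have hRH : RHp := fun ρ hρ => (H ρ hρ).1
  obtain ⟨C1, hC1, hpt⟩ := hPT hRH
  have hcov := (hDBL hRH).1
  have hNT : ∀ y : ℝ, riemannZeta (⟨1 / 2, y⟩ : ℂ) = 0 → (⟨1 / 2, y⟩ : ℂ) ∈ NT := by
    intro y hy
    refine ⟨hy, ?_, ?_⟩ <;> norm_num
  have hS0 : 0 ≤ S := by simpa using hS ∅ (by simp)
  rcases le_or_gt M 0 with hM0' | hM0
  · refine ⟨1, one_pos, ?_⟩
    intro δ h hδ hδ2 hh hh1 hM
    exfalso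
    have := hM 0
    have h2 : 0 < (3 + |(0 : ℝ)|) ^ (2 * δ) * Real.exp (-(h ^ 2 * (0 : ℝ) ^ 2)) := by positivity
    linarith
  classical
  -- the weights
  let F : ℝ → ENNReal := fun y => if riemannZeta (⟨1 / 2, y⟩ : ℂ) = 0 then ENNReal.ofReal (Ac y ^ 2) else 0
  have hF : ∑' y, F y ≤ ENNReal.ofReal S := by
    rw [ENNReal.tsum_eq_iSup_sum]
    refine iSup_le ?_
    intro Z
    have h1 : ∑ y ∈ Z, F y = ∑ y ∈ Z.filter (fun y => riemannZeta (⟨1 / 2, y⟩ : ℂ) = 0),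
        ENNReal.ofReal (Ac y ^ 2) := by
      rw [Finset.sum_filter]
    rw [h1, ← ENNReal.ofReal_sum_of_nonneg (fun y _ => sq_nonneg _)]
    apply ENNReal.ofReal_le_ofReal
    have hinj : Function.Injective (fun y : ℝ => (⟨1 / 2, y⟩ : ℂ)) := by
      intro x y hxy
      exact (Complex.ext_iff.mp hxy).2
    have h2 := hS ((Z.filter (fun y => riemannZeta (⟨1 / 2, y⟩ : ℂ) = 0)).map ⟨_, hinj⟩) (by
      intro ρ hρ
      rw [Finset.mem_map] at hρ
      obtain ⟨y, hy, rfl⟩ := hρ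
      exact hNT y (Finset.mem_filter.mp hy).2)
    rw [Finset.sum_map] at h2
    refine le_trans (le_of_eq ?_) h2
    apply Finset.sum_congr rfl
    intro y _
    simp only [Ac, Function.Embedding.coeFn_mk]
    rw [div_pow, one_pow]
  have hFpos : ∀ y : ℝ, riemannZeta (⟨1 / 2, y⟩ : ℂ) = 0 → F y ≠ 0 := by
    intro y hy
    have hd := (H _ (hNT y hy)).2
    have hne : (⟨1 / 2, y⟩ : ℂ) ≠ 0 := by
      intro h0
      have := (Complex.ext_iff.mp h0).1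
      norm_num at this
    simp only [F, if_pos hy]
    have : 0 < Ac y := by
      unfold Ac
      apply one_div_pos.mpr
      exact norm_pos_iff.mpr (mul_ne_zero hne hd)
    have h3 : 0 < Ac y ^ 2 := by positivity
    exact (ENNReal.ofReal_pos.mpr h3).ne'
  have hYc : {y : ℝ | riemannZeta (⟨1 / 2, y⟩ : ℂ) = 0}.Countable := by
    have h1 : F.support.Countable :=
      Summable.countable_support_ennreal (ne_top_of_le_ne_top ENNReal.ofReal_ne_top hF)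
    exact h1.mono (fun y hy => hFpos y hy)
  -- the index type
  let T := {p : ℝ × ℝ // Cons p.1 p.2}
  have hfst : Function.Injective (fun p : T => p.1.1) := by
    rintro ⟨⟨a, b⟩, hp⟩ ⟨⟨a', b'⟩, hp'⟩ hh
    simp only at hh hp hp'
    subst hh
    have := cons_fst hp hp'
    subst this
    rfl
  have hsnd : Function.Injective (fun p : T => p.1.2) := by
    rintro ⟨⟨a, b⟩, hp⟩ ⟨⟨a', b'⟩, hp'⟩ hh
    simp only at hh hp hp'
    subst hh
    have := cons_snd hp hp'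
    subst this
    rfl
  have hTc : Countable T := by
    have : Countable {y : ℝ | riemannZeta (⟨1 / 2, y⟩ : ℂ) = 0} := hYc.to_subtype
    let g : T → {y : ℝ | riemannZeta (⟨1 / 2, y⟩ : ℂ) = 0} := fun p => ⟨p.1.1, p.2.2.1⟩
    have hg : Function.Injective g := by
      intro p q hpq
      apply hfst
      exact congrArg Subtype.val hpq
    exact hg.countable
  have hae : (⋃ p : T, Ioo p.1.1 p.1.2) =ᵐ[volume] (univ : Set ℝ) := by
    rw [ae_eq_univ]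
    apply measure_mono_null _ (hYc.measure_zero volume)
    intro t ht
    by_contra hne
    obtain ⟨a, b, hab, h1, h2⟩ := hcov t hne
    apply ht
    rw [mem_iUnion]
    exact ⟨⟨(a, b), hab⟩, h1, h2⟩
  set K : ℝ := 8 * Real.pi * Real.exp 1 * C1 ^ 2 * M with hK
  have hK0 : 0 ≤ K := by positivity
  let w : T → ENNReal := fun p => F p.1.1 + F p.1.2
  have hw : ∑' p : T, w p ≤ ENNReal.ofReal S + ENNReal.ofReal S := by
    rw [ENNReal.tsum_add]
    gcongr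
    · exact (ENNReal.tsum_comp_le_tsum_of_injective hfst F).trans hF
    · exact (ENNReal.tsum_comp_le_tsum_of_injective hsnd F).trans hF
  have hwt : ∑' p : T, w p ≠ ⊤ := ne_top_of_le_ne_top (by finiteness) hw
  set η : ENNReal := ENNReal.ofReal (ε / (2 * (K + 1))) with hη
  have hη0 : 0 < η := ENNReal.ofReal_pos.mpr (by positivity)
  obtain ⟨s, hs⟩ := ((ENNReal.tendsto_tsum_compl_atTop_zero hwt).eventually (gt_mem_nhds hη0)).exists
  set ε' : ℝ := ε / (2 * (s.card + 1)) with hε'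
  have hε'0 : 0 < ε' := by positivity
  have hgap : ∀ p : T, ∃ δ0 : ℝ, 0 < δ0 ∧ ∀ δ h : ℝ, 0 < δ → δ < δ0 → 0 < h → h < δ0 →
      ∫⁻ t in Set.Ioo p.1.1 p.1.2, ‖GG h 0 (⟨1 / 2 + δ, t⟩ : ℂ)‖ₑ ^ 2 ≤
        ENNReal.ofReal ((Real.pi / 2 * (Ac p.1.1 ^ 2 + Ac p.1.2 ^ 2) + ε') / δ) := fun p =>
    hGAP p.1.1 p.1.2 p.2 (H _ (hNT _ p.2.2.1)).2 (H _ (hNT _ p.2.2.2.1)).2 ε' hε'0
  choose d hd0 hd using hgap
  set δ0 : ℝ := (insert (1 / 2 : ℝ) (s.image d)).min' (Finset.insert_nonempty _ _) with hδ0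
  have hδ0p : 0 < δ0 := by
    rw [hδ0, Finset.lt_min'_iff]
    intro y hy
    rw [Finset.mem_insert, Finset.mem_image] at hy
    rcases hy with rfl | ⟨p, _, rfl⟩
    · norm_num
    · exact hd0 p
  have hδ0h : δ0 ≤ 1 / 2 := Finset.min'_le _ _ (Finset.mem_insert_self _ _)
  have hδ0d : ∀ p ∈ s, δ0 ≤ d p := fun p hp =>
    Finset.min'_le _ _ (Finset.mem_insert_of_mem (Finset.mem_image_of_mem d hp))
  refine ⟨δ0, hδ0p, ?_⟩
  intro δ h hδ hδd hh hhd hM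
  have hδ2 : δ < 1 / 2 := lt_of_lt_of_le hδd hδ0h
  have hh1 : h ≤ 1 := by linarith
  set g : ℝ → ENNReal := fun t => ‖GG h 0 (⟨1 / 2 + δ, t⟩ : ℂ)‖ₑ ^ 2 with hg
  have hpiece : ∀ p : T, ∫⁻ t in Ioo p.1.1 p.1.2, g t ≤
      ENNReal.ofReal (8 * Real.pi * Real.exp 1 * C1 ^ 2 * M / δ) * (F p.1.1 + F p.1.2) := by
    rintro ⟨⟨a, b⟩, hp⟩
    simp only at hp ⊢
    have hda := (H _ (hNT a hp.2.1)).2
    have hdb := (H _ (hNT b hp.2.2.1)).2
    have hFa : F a = ENNReal.ofReal (Ac a ^ 2) := if_pos hp.2.1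
    have hFb : F b = ENNReal.ofReal (Ac b ^ 2) := if_pos hp.2.2.1
    set κ : ℝ := Real.exp 1 * C1 ^ 2 * M * (2 * (Ac a ^ 2 + Ac b ^ 2)) with hκ
    have hκ0 : 0 ≤ κ := by positivity
    have hbd : ∀ t ∈ Ioo a b, g t ≤ ENNReal.ofReal (κ * 2) *
        (ENNReal.ofReal (1 / (δ ^ 2 + (t - a) ^ 2)) + ENNReal.ofReal (1 / (δ ^ 2 + (t - b) ^ 2))) := by
      intro t ht
      have h1 := hpt a b t δ hp ht.1 ht.2 hδ hδ2 hda hdb
      have h2 : ‖GG h 0 (⟨1 / 2 + δ, t⟩ : ℂ)‖ ^ 2 ≤ κ *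
          (2 * (1 / (δ ^ 2 + (t - a) ^ 2)) + 2 * (1 / (δ ^ 2 + (t - b) ^ 2))) := by
        rw [GG, div_eq_mul_inv, norm_mul, mul_pow]
        have e1 := ee_aux (t := t) hδ hδ2 hh hh1
        have e2 : ‖((⟨1 / 2 + δ, t⟩ : ℂ) * riemannZeta (⟨1 / 2 + δ, t⟩ : ℂ))⁻¹‖ ^ 2 ≤
            (C1 * (3 + |t|) ^ δ * ((b - a) / (‖(⟨δ, t - a⟩ : ℂ)‖ * ‖(⟨δ, t - b⟩ : ℂ)‖)) *
              (Ac a + Ac b)) ^ 2 := pow_le_pow_left₀ (norm_nonneg _) h1 2
        have e3 : (C1 * (3 + |t|) ^ δ * ((b - a) / (‖(⟨δ, t - a⟩ : ℂ)‖ * ‖(⟨δ, t - b⟩ : ℂ)‖)) *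
              (Ac a + Ac b)) ^ 2 = C1 ^ 2 * (3 + |t|) ^ (2 * δ) *
              ((b - a) / (‖(⟨δ, t - a⟩ : ℂ)‖ * ‖(⟨δ, t - b⟩ : ℂ)‖)) ^ 2 * (Ac a + Ac b) ^ 2 := by
          have : (3 + |t|) ^ (2 * δ) = ((3 + |t|) ^ δ) ^ 2 := by
            rw [mul_comm, Real.rpow_mul (by positivity)]
            norm_num
          rw [this]; ring
        have e4 := q_aux (t := t) hδ hp.1
        have e5 : (Ac a + Ac b) ^ 2 ≤ 2 * (Ac a ^ 2 + Ac b ^ 2) := by
          nlinarith [sq_nonneg (Ac a - Ac b)]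
        have e6 := hM t
        set Q := ((b - a) / (‖(⟨δ, t - a⟩ : ℂ)‖ * ‖(⟨δ, t - b⟩ : ℂ)‖)) ^ 2 with hQ
        set R := (2 * (1 / (δ ^ 2 + (t - a) ^ 2)) + 2 * (1 / (δ ^ 2 + (t - b) ^ 2))) with hR
        have hQ0 : 0 ≤ Q := sq_nonneg _
        calc ‖EE h 0 (⟨1 / 2 + δ, t⟩ : ℂ)‖ ^ 2 *
              ‖((⟨1 / 2 + δ, t⟩ : ℂ) * riemannZeta (⟨1 / 2 + δ, t⟩ : ℂ))⁻¹‖ ^ 2
            ≤ (Real.exp 1 * Real.exp (-(h ^ 2 * t ^ 2))) *
              (C1 ^ 2 * (3 + |t|) ^ (2 * δ) * Q * (Ac a + Ac b) ^ 2) := by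
              rw [e3] at e2
              exact mul_le_mul e1 e2 (by positivity) (by positivity)
          _ = Real.exp 1 * C1 ^ 2 * ((3 + |t|) ^ (2 * δ) * Real.exp (-(h ^ 2 * t ^ 2))) *
              (Q * (Ac a + Ac b) ^ 2) := by ring
          _ ≤ Real.exp 1 * C1 ^ 2 * M * (R * (2 * (Ac a ^ 2 + Ac b ^ 2))) := by
              apply mul_le_mul
              · exact mul_le_mul_of_nonneg_left e6 (by positivity)
              · exact mul_le_mul e4 e5 (by positivity) (le_trans hQ0 e4)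
              · positivity
              · positivity
          _ = κ * R := by rw [hκ]; ring
      have h3 : g t = ENNReal.ofReal (‖GG h 0 (⟨1 / 2 + δ, t⟩ : ℂ)‖ ^ 2) := by
        rw [hg]
        simp only
        rw [← ofReal_norm, ENNReal.ofReal_pow (norm_nonneg _)]
      rw [h3, ← ENNReal.ofReal_add (by positivity) (by positivity), ← ENNReal.ofReal_mul (by positivity)]
      apply ENNReal.ofReal_le_ofReal
      refine h2.trans (le_of_eq ?_)
      ring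
    calc ∫⁻ t in Ioo a b, g t ≤ ∫⁻ t in Ioo a b, ENNReal.ofReal (κ * 2) *
        (ENNReal.ofReal (1 / (δ ^ 2 + (t - a) ^ 2)) + ENNReal.ofReal (1 / (δ ^ 2 + (t - b) ^ 2))) :=
          setLIntegral_mono' measurableSet_Ioo hbd
      _ ≤ ∫⁻ t, ENNReal.ofReal (κ * 2) *
        (ENNReal.ofReal (1 / (δ ^ 2 + (t - a) ^ 2)) + ENNReal.ofReal (1 / (δ ^ 2 + (t - b) ^ 2))) :=
          setLIntegral_le_lintegral _ _
      _ = ENNReal.ofReal (κ * 2) * (ENNReal.ofReal (Real.pi / δ) + ENNReal.ofReal (Real.pi / δ)) := by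
          rw [lintegral_const_mul _ (by fun_prop), lintegral_add_left (by fun_prop),
            cauchy_aux δ a hδ, cauchy_aux δ b hδ]
      _ = _ := by
          rw [hFa, hFb, ← ENNReal.ofReal_add (by positivity) (by positivity),
            ← ENNReal.ofReal_mul (by positivity), ← ENNReal.ofReal_add (by positivity) (by positivity),
            ← ENNReal.ofReal_mul (by positivity)]
          congr 1
          rw [hκ]
          ring
  have hsplit : ∑' p : T, ∫⁻ t in Ioo p.1.1 p.1.2, g t =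
      (∑ p ∈ s, ∫⁻ t in Ioo p.1.1 p.1.2, g t) +
        ∑' p : {x // x ∉ s}, ∫⁻ t in Ioo p.1.1.1 p.1.1.2, g t := by
    have h3 := Finset.tsum_subtype s (fun p : T => ∫⁻ t in Ioo p.1.1 p.1.2, g t)
    have h4 := Summable.tsum_add_tsum_compl (s := (↑s : Set T))
      (f := fun p : T => ∫⁻ t in Ioo p.1.1 p.1.2, g t) ENNReal.summable ENNReal.summable
    have h5 : ∑' x : ((↑s : Set T)), (fun p : T => ∫⁻ t in Ioo p.1.1 p.1.2, g t) x =
        ∑ p ∈ s, ∫⁻ t in Ioo p.1.1 p.1.2, g t := h3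
    rw [h5] at h4
    exact h4.symm
  have hfin : ∑ p ∈ s, ∫⁻ t in Ioo p.1.1 p.1.2, g t ≤
      ENNReal.ofReal (1 / δ) * (ENNReal.ofReal (Real.pi / 2) * (ENNReal.ofReal S + ENNReal.ofReal S)
        + ENNReal.ofReal (ε / 2)) := by
    calc ∑ p ∈ s, ∫⁻ t in Ioo p.1.1 p.1.2, g t
        ≤ ∑ p ∈ s, ENNReal.ofReal (1 / δ) * (ENNReal.ofReal (Real.pi / 2) * w p + ENNReal.ofReal ε') := by
          apply Finset.sum_le_sum
          intro p hp
          refine (hd p δ h hδ (lt_of_lt_of_le hδd (hδ0d p hp)) hh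
            (lt_of_lt_of_le hhd (hδ0d p hp))).trans (le_of_eq ?_)
          have hFa : F p.1.1 = ENNReal.ofReal (Ac p.1.1 ^ 2) := if_pos p.2.2.1
          have hFb : F p.1.2 = ENNReal.ofReal (Ac p.1.2 ^ 2) := if_pos p.2.2.2.1
          show _ = ENNReal.ofReal (1 / δ) * (ENNReal.ofReal (Real.pi / 2) * (F p.1.1 + F p.1.2) + ENNReal.ofReal ε')
          rw [hFa, hFb, ← ENNReal.ofReal_add (by positivity) (by positivity),
            ← ENNReal.ofReal_mul (by positivity), ← ENNReal.ofReal_add (by positivity) (by positivity),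
            ← ENNReal.ofReal_mul (by positivity)]
          congr 1
          ring
      _ = ENNReal.ofReal (1 / δ) * (ENNReal.ofReal (Real.pi / 2) * ∑ p ∈ s, w p +
            ENNReal.ofReal (s.card * ε')) := by
          rw [← Finset.mul_sum, Finset.sum_add_distrib, ← Finset.mul_sum, Finset.sum_const,
            nsmul_eq_mul, ENNReal.ofReal_mul (by positivity), ENNReal.ofReal_natCast]
      _ ≤ _ := by
          gcongr
          · exact (ENNReal.sum_le_tsum s).trans hw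
          · rw [hε']
            have h5 : (0 : ℝ) < 2 * (s.card + 1) := by positivity
            rw [mul_div_assoc', div_le_div_iff₀ h5 (by norm_num)]
            nlinarith
  have htail : ∑' p : {x // x ∉ s}, ∫⁻ t in Ioo p.1.1.1 p.1.1.2, g t ≤
      ENNReal.ofReal (1 / δ) * ENNReal.ofReal (ε / 2) := by
    calc ∑' p : {x // x ∉ s}, ∫⁻ t in Ioo p.1.1.1 p.1.1.2, g t
        ≤ ∑' p : {x // x ∉ s}, ENNReal.ofReal (K / δ) * w p.1 :=
          ENNReal.tsum_le_tsum (fun p => hpiece p.1)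
      _ = ENNReal.ofReal (K / δ) * ∑' p : {x // x ∉ s}, w p.1 := ENNReal.tsum_mul_left
      _ ≤ ENNReal.ofReal (K / δ) * η := by gcongr
      _ ≤ _ := by
          rw [hη, ← ENNReal.ofReal_mul (by positivity), ← ENNReal.ofReal_mul (by positivity)]
          apply ENNReal.ofReal_le_ofReal
          have h5 : 0 < K + 1 := by positivity
          have h6 : K / δ * (ε / (2 * (K + 1))) = 1 / δ * (ε / 2) * (K / (K + 1)) := by
            field_simp
          rw [h6]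
          have h7 : K / (K + 1) ≤ 1 := by
            rw [div_le_one h5]; linarith
          have h8 : 0 ≤ 1 / δ * (ε / 2) := by positivity
          nlinarith
  calc ∫⁻ t : ℝ, g t = ∫⁻ t in (⋃ p : T, Ioo p.1.1 p.1.2), g t := by
        rw [setLIntegral_congr hae, setLIntegral_univ]
    _ ≤ ∑' p : T, ∫⁻ t in Ioo p.1.1 p.1.2, g t := lintegral_iUnion_le _ _
    _ = _ := hsplit
    _ ≤ ENNReal.ofReal (1 / δ) * (ENNReal.ofReal (Real.pi / 2) * (ENNReal.ofReal S + ENNReal.ofReal S)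
        + ENNReal.ofReal (ε / 2)) + ENNReal.ofReal (1 / δ) * ENNReal.ofReal (ε / 2) :=
        add_le_add hfin htail
    _ = ENNReal.ofReal ((Real.pi * S + ε) / δ) := by
        rw [← ENNReal.ofReal_add hS0 hS0, ← ENNReal.ofReal_mul (by positivity),
          ← ENNReal.ofReal_add (by positivity) (by positivity), ← ENNReal.ofReal_mul (by positivity),
          ← ENNReal.ofReal_mul (by positivity), ← ENNReal.ofReal_add (by positivity) (by positivity)]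
        congr 1
        ring

end Pool.Agent.W93.WM
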